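import Mathlib

set_option autoImplicit false

namespace Pool.Agent.H.MP_ab53bf_co
open Set Filter Topology

noncomputable def bu (e L : ℝ) (z : ℝ × ℝ) : ℝ :=
  max 0 (min (z.1 / e) ((L - z.1) / (L - e)) - |z.2| / e)

lemma bu_zero {e L : ℝ} (he : 0 < e) (hL : e < L) {z : ℝ × ℝ}
    (h : ¬ (|z.2| < z.1 ∧ z.1 < L)) : bu e L z = 0 := by
  unfold bu
  apply max_eq_left
  have h0 : 0 ≤ |z.2| / e := by positivity
  rcases not_and_or.1 h with h | h
  · have : z.1 / e ≤ |z.2| / e := div_le_div_of_nonneg_right (not_lt.1 h) he.le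
    have := min_le_left (z.1 / e) ((L - z.1) / (L - e))
    linarith
  · have : (L - z.1) / (L - e) ≤ 0 :=
      div_nonpos_of_nonpos_of_nonneg (by linarith [not_lt.1 h]) (by linarith)
    have := min_le_right (z.1 / e) ((L - z.1) / (L - e))
    linarith

lemma bu_lip {e L : ℝ} (he : 0 < e) (hL : e < L) (s s' u : ℝ) (h : s ≤ s') :
    bu e L (s', u) ≤ bu e L (s, u) + (s' - s) / e ∧
      bu e L (s, u) ≤ bu e L (s', u) + (s' - s) / (L - e) := by
  unfold bu
  have hL' : 0 < L - e := by linarith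
  have h1 : 0 ≤ (s' - s) / e := div_nonneg (by linarith) he.le
  have h2 : 0 ≤ (s' - s) / (L - e) := div_nonneg (by linarith) hL'.le
  have e1 : s' / e = s / e + (s' - s) / e := by ring
  have e2 : (L - s) / (L - e) = (L - s') / (L - e) + (s' - s) / (L - e) := by ring
  simp only [e1, e2]
  generalize (s' - s) / e = a at *
  generalize (s' - s) / (L - e) = b at *
  generalize s / e = c
  generalize (L - s') / (L - e) = d
  generalize |u| / e = f
  constructor <;> simp only [max_def, min_def] <;> split_ifs <;> linarith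

lemma bu_cont (e L : ℝ) : Continuous (bu e L) := by
  unfold bu; fun_prop

lemma model (e1 e2 L : ℝ) (h1 : 0 < e1) (h1L : e1 < L) (h2 : 0 < e2) (h2L : e2 < L) :
    ∃ Φ : (ℝ × ℝ) ≃ₜ (ℝ × ℝ), (∀ z : ℝ × ℝ, ¬ (|z.2| < z.1 ∧ z.1 < L) → Φ z = z) ∧
      ∀ t : ℝ, 0 ≤ t → t ≤ 1 → Φ (t * e1, 0) = (t * e2, 0) := by
  let f : ℝ × ℝ → ℝ × ℝ := fun z => (z.1 + (e2 - e1) * bu e1 L z, z.2)
  have hfc : Continuous f := by
    have := bu_cont e1 L
    fun_prop
  have hid : ∀ z : ℝ × ℝ, ¬ (|z.2| < z.1 ∧ z.1 < L) → f z = z := by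
    intro z hz
    simp [f, bu_zero h1 h1L hz]
  have hL' : 0 < L - e1 := by linarith
  have hmono : ∀ u s s' : ℝ, s < s' → (f (s, u)).1 < (f (s', u)).1 := by
    intro u s s' h
    obtain ⟨ha, hb⟩ := bu_lip h1 h1L s s' u h.le
    simp only [f]
    have hs : 0 < s' - s := by linarith
    rcases le_total e1 e2 with hc | hc
    · have h3 : (e2 - e1) * ((s' - s) / (L - e1)) < s' - s := by
        rw [← mul_div_assoc, div_lt_iff₀ hL']; nlinarith
      nlinarith [mul_le_mul_of_nonneg_left hb (sub_nonneg.2 hc)]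
    · have h3 : (e1 - e2) * ((s' - s) / e1) < s' - s := by
        rw [← mul_div_assoc, div_lt_iff₀ h1]; nlinarith
      nlinarith [mul_le_mul_of_nonneg_left ha (sub_nonneg.2 hc)]
  have hinj : Function.Injective f := by
    rintro ⟨s, u⟩ ⟨s', u'⟩ h
    have hu : u = u' := congrArg Prod.snd h
    subst hu
    have hs : (f (s, u)).1 = (f (s', u)).1 := congrArg Prod.fst h
    rcases lt_trichotomy s s' with hl | hl | hl
    · exact absurd hs (hmono u s s' hl).ne
    · rw [hl]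
    · exact absurd hs (hmono u s' s hl).ne'
  have hsurj : Function.Surjective f := by
    rintro ⟨s, u⟩
    by_cases hz : |u| < s ∧ s < L
    · have hc : ContinuousOn (fun r : ℝ => (f (r, u)).1) (Icc 0 L) := by fun_prop
      have hL0 : (0 : ℝ) ≤ L := by linarith
      have := intermediate_value_Icc hL0 hc
      have e0 : (f (0, u)).1 = 0 := by rw [hid (0, u) (by simp)]
      have eL : (f (L, u)).1 = L := by rw [hid (L, u) (by simp)]
      simp only [e0, eL] at this
      obtain ⟨r, -, hr⟩ := this ⟨(abs_nonneg u).trans hz.1.le, hz.2.le⟩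
      exact ⟨(r, u), Prod.ext hr rfl⟩
    · exact ⟨(s, u), hid _ hz⟩
  have hprop : IsProperMap f := by
    rw [isProperMap_iff_tendsto_cocompact]
    refine ⟨hfc, ?_⟩
    have hK : IsCompact (Icc (0 : ℝ) L ×ˢ Icc (-L) L) := isCompact_Icc.prod isCompact_Icc
    have hev : id =ᶠ[cocompact (ℝ × ℝ)] f := by
      filter_upwards [hK.compl_mem_cocompact] with z hz
      refine (hid z ?_).symm
      rintro ⟨ha, hb⟩
      have := abs_lt.1 ha
      exact hz ⟨⟨(abs_nonneg _).trans ha.le, hb.le⟩, ⟨by linarith, by linarith⟩⟩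
    exact tendsto_id.congr' hev
  refine ⟨(Equiv.ofBijective f ⟨hinj, hsurj⟩).toHomeomorphOfContinuousClosed hfc hprop.isClosedMap,
    hid, ?_⟩
  intro t ht0 ht1
  show f (t * e1, 0) = _
  have e : bu e1 L (t * e1, 0) = t := by
    unfold bu
    have a1 : t * e1 / e1 = t := by field_simp
    have a2 : t ≤ (L - t * e1) / (L - e1) := by
      rw [le_div_iff₀ hL']; nlinarith
    simp only [a1, min_eq_left a2, abs_zero, zero_div, sub_zero]
    exact max_eq_right ht0
  simp only [f, e]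
  congr 1
  ring

def cr (a b : ℝ × ℝ) : ℝ := a.1 * b.2 - a.2 * b.1

noncomputable def frame (P w v : ℝ × ℝ) (h : cr w v ≠ 0) : (ℝ × ℝ) ≃ₜ (ℝ × ℝ) where
  toFun z := P + z.1 • w + z.2 • v
  invFun p := (cr (p - P) v / cr w v, cr w (p - P) / cr w v)
  left_inv z := by
    ext
    · simp only []; rw [div_eq_iff h]; simp [cr]; ring
    · simp only []; rw [div_eq_iff h]; simp [cr]; ring
  right_inv p := by
    have e : cr w v = w.1 * v.2 - w.2 * v.1 := rfl
    ext
    · simp only [Prod.fst_add, Prod.smul_fst, smul_eq_mul]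
      field_simp
      simp [cr]; ring
    · simp only [Prod.snd_add, Prod.smul_snd, smul_eq_mul]
      field_simp
      simp [cr]; ring
  continuous_toFun := by fun_prop
  continuous_invFun := by unfold cr; fun_prop

lemma push (P w v : ℝ × ℝ) (h : cr w v ≠ 0) (e1 e2 L : ℝ) (h1 : 0 < e1) (h1L : e1 < L)
    (h2 : 0 < e2) (h2L : e2 < L) :
    ∃ g : (ℝ × ℝ) ≃ₜ (ℝ × ℝ),
      (∀ p : ℝ × ℝ, (∀ s u : ℝ, |u| < s → s < L → P + s • w + u • v ≠ p) → g p = p) ∧
      ∀ t : ℝ, 0 ≤ t → t ≤ 1 → g (P + (t * e1) • w) = P + (t * e2) • w := by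
  obtain ⟨Φ, hid, hseg⟩ := model e1 e2 L h1 h1L h2 h2L
  let E := frame P w v h
  have hE : ∀ z : ℝ × ℝ, E z = P + z.1 • w + z.2 • v := fun z => rfl
  refine ⟨(E.symm.trans Φ).trans E, ?_, ?_⟩
  · intro p hp
    have : Φ (E.symm p) = E.symm p := by
      apply hid
      rintro ⟨ha, hb⟩
      exact hp _ _ ha hb (by rw [← hE, E.apply_symm_apply])
    simp [this]
  · intro t h0 h1'
    have e : ∀ c : ℝ, P + c • w = E (c, 0) := fun c => by simp [hE]
    simp [e, hseg t h0 h1']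

lemma mem_seg (P w p : ℝ × ℝ) (e : ℝ) :
    p ∈ segment ℝ P (P + e • w) ↔ ∃ t : ℝ, 0 ≤ t ∧ t ≤ 1 ∧ p = P + (t * e) • w := by
  rw [segment_eq_image']
  simp only [add_sub_cancel_left, smul_smul, mem_image, mem_Icc]
  constructor
  · rintro ⟨t, ⟨h0, h1⟩, rfl⟩; exact ⟨t, h0, h1, rfl⟩
  · rintro ⟨t, h0, h1, rfl⟩; exact ⟨t, ⟨h0, h1⟩, rfl⟩

section multi
variable {ι : Type} [Fintype ι] [DecidableEq ι] (A B : Set (ℝ × ℝ)) (P w v : ι → ℝ × ℝ) (L : ℝ)

def Rel (e e' : ι → ℝ) : Prop :=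
  ∃ h : (ℝ × ℝ) ≃ₜ (ℝ × ℝ),
    h '' (A ∪ ⋃ i, segment ℝ (P i) (P i + e i • w i)) =
      A ∪ ⋃ i, segment ℝ (P i) (P i + e' i • w i) ∧
    h '' (B ∪ range fun i => P i + e i • w i) = B ∪ range fun i => P i + e' i • w i

lemma step (hB : B ⊆ A) (hD : ∀ i, cr (w i) (v i) ≠ 0)
    (hA : ∀ i s u, |u| < s → s < L → P i + s • w i + u • v i ∉ A)
    (hP : ∀ i j, i ≠ j → ∀ s u r : ℝ, |u| < s → s < L → 0 ≤ r → r < L →
      P i + s • w i + u • v i ≠ P j + r • w j)
    (e : ι → ℝ) (he : ∀ i, 0 < e i ∧ e i < L) (a : ι) (c : ℝ) (hc : 0 < c ∧ c < L) :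
    Rel A B P w e (Function.update e a c) := by
  obtain ⟨g, hid, hseg⟩ := push (P a) (w a) (v a) (hD a) (e a) c L (he a).1 (he a).2 hc.1 hc.2
  have fA : ∀ p ∈ A, g p = p := fun p hp => hid p fun s u h1 h2 h => hA a s u h1 h2 (h ▸ hp)
  have fP : ∀ j, j ≠ a → ∀ t : ℝ, 0 ≤ t → t ≤ 1 →
      g (P j + (t * e j) • w j) = P j + (t * e j) • w j := by
    intro j hj t h0 h1
    refine hid _ fun s u h2 h3 => hP a j hj.symm s u _ h2 h3 ?_ ?_
    · exact mul_nonneg h0 (he j).1.le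
    · nlinarith [(he j).1, (he j).2]
  have key : ∀ j, ∀ t : ℝ, 0 ≤ t → t ≤ 1 →
      g (P j + (t * e j) • w j) = P j + (t * Function.update e a c j) • w j := by
    intro j t h0 h1
    by_cases hj : j = a
    · subst hj; rw [Function.update_self]; exact hseg t h0 h1
    · rw [Function.update_of_ne hj]; exact fP j hj t h0 h1
  refine ⟨g, ?_, ?_⟩
  · ext q
    simp only [mem_image, mem_union, mem_iUnion, mem_seg]
    constructor
    · rintro ⟨p, hp | ⟨j, t, h0, h1, rfl⟩, rfl⟩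
      · left; rw [fA p hp]; exact hp
      · right; exact ⟨j, t, h0, h1, key j t h0 h1⟩
    · rintro (hq | ⟨j, t, h0, h1, rfl⟩)
      · exact ⟨q, Or.inl hq, fA q hq⟩
      · exact ⟨_, Or.inr ⟨j, t, h0, h1, rfl⟩, key j t h0 h1⟩
  · ext q
    have key1 : ∀ j, g (P j + e j • w j) = P j + Function.update e a c j • w j := by
      intro j; simpa using key j 1 zero_le_one le_rfl
    simp only [mem_image, mem_union, mem_range]
    constructor
    · rintro ⟨p, hp | ⟨j, rfl⟩, rfl⟩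
      · left; rw [fA p (hB hp)]; exact hp
      · right; exact ⟨j, (key1 j).symm⟩
    · rintro (hq | ⟨j, rfl⟩)
      · exact ⟨q, Or.inl hq, fA q (hB hq)⟩
      · exact ⟨_, Or.inr ⟨j, rfl⟩, key1 j⟩

lemma multi (hB : B ⊆ A) (hD : ∀ i, cr (w i) (v i) ≠ 0)
    (hA : ∀ i s u, |u| < s → s < L → P i + s • w i + u • v i ∉ A)
    (hP : ∀ i j, i ≠ j → ∀ s u r : ℝ, |u| < s → s < L → 0 ≤ r → r < L →
      P i + s • w i + u • v i ≠ P j + r • w j)
    (e e' : ι → ℝ) (he : ∀ i, 0 < e i ∧ e i < L) (he' : ∀ i, 0 < e' i ∧ e' i < L) :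
    Rel A B P w e e' := by
  have main : ∀ S : Finset ι, Rel A B P w e (fun i => if i ∈ S then e' i else e i) := by
    intro S
    induction S using Finset.induction_on with
    | empty => exact ⟨Homeomorph.refl _, by simp, by simp⟩
    | insert a S ha ih =>
      obtain ⟨h, h1, h2⟩ := ih
      obtain ⟨g, g1, g2⟩ := step A B P w v L hB hD hA hP (fun i => if i ∈ S then e' i else e i)
        (fun i => by split_ifs; exacts [he' i, he i]) a (e' a) (he' a)
      have eq : Function.update (fun i => if i ∈ S then e' i else e i) a (e' a) =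
          fun i => if i ∈ insert a S then e' i else e i := by
        funext i
        by_cases hi : i = a
        · subst hi; simp
        · simp [hi]
      rw [eq] at g1 g2
      refine ⟨h.trans g, ?_, ?_⟩
      · rw [← g1, ← h1, image_image]; rfl
      · rw [← g2, ← h2, image_image]; rfl
  simpa using main Finset.univ

end multi

lemma sgn (f : ℝ → ℝ) (hc : ContinuousOn f (Icc 0 1)) (hne : ∀ t ∈ Icc (0 : ℝ) 1, f t ≠ 0)
    (h0 : 0 < f 0) : ∀ t ∈ Icc (0 : ℝ) 1, 0 < f t := by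
  intro t ht
  by_contra h
  have hsub : Icc 0 t ⊆ Icc (0 : ℝ) 1 := Icc_subset_Icc le_rfl ht.2
  obtain ⟨r, hr, hr0⟩ := intermediate_value_Icc' ht.1 (hc.mono hsub) ⟨not_lt.1 h, h0.le⟩
  exact hne r (hsub hr) hr0

lemma onseg (P Q Q' u w : ℝ × ℝ) (c : ℝ) (hc : 0 < c) (hQ : Q' - Q = c • w)
    (hk : 0 < cr u w) (h0 : cr (Q - P) w = 0) (h1 : 0 ≤ cr (Q - P) u) (h2 : 0 ≤ cr u (Q' - P)) :
    P ∈ segment ℝ Q Q' := by
  have e : Q' = Q + c • w := by rw [← hQ]; simp
  subst e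
  rw [mem_seg]
  have hck : 0 < cr u w * c := mul_pos hk hc
  refine ⟨cr (Q - P) u / (cr u w * c), div_nonneg h1 hck.le, ?_, ?_⟩
  · rw [div_le_one hck]
    simp only [cr, Prod.fst_sub, Prod.snd_sub, Prod.fst_add, Prod.snd_add, Prod.smul_fst,
      Prod.smul_snd, smul_eq_mul] at h2 ⊢
    nlinarith
  · have e1 : cr (Q - P) u / (cr u w * c) * c = cr (Q - P) u / cr u w := by field_simp
    rw [e1]
    have hk' := hk.ne'
    simp only [cr, Prod.fst_sub, Prod.snd_sub] at h0 hk' ⊢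
    ext
    · simp only [Prod.fst_add, Prod.smul_fst, smul_eq_mul]
      field_simp
      linear_combination (-u.1) * h0
    · simp only [Prod.snd_add, Prod.smul_snd, smul_eq_mul]
      field_simp
      linear_combination (-u.2) * h0

noncomputable def ph (P P' Q Q' u w : ℝ × ℝ) : ℝ :=
  min (min (cr (Q - P) w) (cr (P' - Q) w)) (min (cr (Q - P) u) (cr u (Q' - P)))

lemma hit (P P' Q Q' u w : ℝ × ℝ) (b c : ℝ) (hb : 0 < b) (hc : 0 < c) (hP : P' - P = b • u)
    (hQ : Q' - Q = c • w) (hk : 0 < cr u w) (h : ph P P' Q Q' u w = 0) :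
    P ∈ segment ℝ Q Q' ∨ P' ∈ segment ℝ Q Q' ∨ Q ∈ segment ℝ P P' ∨ Q' ∈ segment ℝ P P' := by
  have p1 : P'.1 = P.1 + b * u.1 := by have := congrArg Prod.fst hP; simp at this; linarith
  have p2 : P'.2 = P.2 + b * u.2 := by have := congrArg Prod.snd hP; simp at this; linarith
  have q1 : Q'.1 = Q.1 + c * w.1 := by have := congrArg Prod.fst hQ; simp at this; linarith
  have q2 : Q'.2 = Q.2 + c * w.2 := by have := congrArg Prod.snd hQ; simp at this; linarith
  have hge := h.ge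
  simp only [ph, le_min_iff] at hge
  obtain ⟨⟨a1, a2⟩, a3, a4⟩ := hge
  have hle := h.le
  simp only [ph, min_le_iff] at hle
  have hk' : 0 < cr (-w) u := by simp only [cr] at hk ⊢; simp; linarith
  rcases hle with (h | h) | h | h
  · exact Or.inl (onseg P Q Q' u w c hc hQ hk (le_antisymm h a1) a3 a4)
  · refine Or.inr (Or.inl (onseg P' Q Q' u w c hc hQ hk ?_ ?_ ?_))
    all_goals simp only [cr, Prod.fst_sub, Prod.snd_sub, p1, p2] at *
    all_goals nlinarith
  · refine Or.inr (Or.inr (Or.inl (onseg Q P P' (-w) u b hb hP hk' ?_ ?_ ?_)))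
    all_goals simp only [cr, Prod.fst_sub, Prod.snd_sub, Prod.fst_neg, Prod.snd_neg] at *
    all_goals nlinarith
  · refine Or.inr (Or.inr (Or.inr (onseg Q' P P' (-w) u b hb hP hk' ?_ ?_ ?_)))
    all_goals simp only [cr, Prod.fst_sub, Prod.snd_sub, Prod.fst_neg, Prod.snd_neg, q1, q2] at *
    all_goals nlinarith

end Pool.Agent.H.MP_ab53bf_co
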