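import Pool.Agent.H.MP_ab53bf_co.A

set_option autoImplicit false

namespace Pool.Agent.H.MP_ab53bf_co
open Set Filter Topology

def x : Fin 10 → ℝ × ℝ := ![(0, 0), (94, 47), (-114, 99), (-102, 90), (-117, 95), (-95, 161), (-70, 86), (-130, 66), (-78, 105), (-166, 83)]
def nx : Fin 10 → ℝ × ℝ := ![(94, 47), (-114, 99), (-102, 90), (-117, 95), (-95, 161), (-70, 86), (-130, 66), (-78, 105), (-166, 83), (0, 0)]
def pv : Fin 10 → ℝ × ℝ := ![(-166, 83), (0, 0), (94, 47), (-114, 99), (-102, 90), (-117, 95), (-95, 161), (-70, 86), (-130, 66), (-78, 105)]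
def W : Fin 10 → ℝ × ℝ := ![(72, -130), (302, -5), (-220, 61), (27, -14), (-37, -61), (-3, 141), (85, -55), (-112, -59), (140, 61), (-254, 61)]
def V : Fin 10 → ℝ × ℝ := ![(-260, 36), (114, -99), (196, -43), (3, 4), (-7, -71), (-47, 9), (35, 95), (8, -19), (36, -17), (-78, 105)]
def D : Fin 10 → ℝ × ℝ := ![(2, 1), (-4, 1), (4, -3), (-3, 1), (1, 3), (1, -3), (-3, -1), (4, 3), (-4, -1), (2, -1)]
def Q : Fin 10 → Fin 10 → Option (ℚ × ℚ) := ![
  ![none, some (94, 47), none, none, none, none, none, none, none, some (0, 0)],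
  ![some (94, 47), none, some (-114, 99), none, none, some (-778/11, 970/11), none, some (-93/1, 375/4), some (-108/1, 195/2), none],
  ![none, some (-114, 99), none, some (-102, 90), none, none, none, none, some (-111/1, 387/4), none],
  ![none, none, some (-102, 90), none, some (-117, 95), none, none, none, none, none],
  ![none, none, none, some (-117, 95), none, some (-95, 161), none, none, some (-1286/11, 1048/11), none],
  ![none, some (-778/11, 970/11), none, none, some (-95, 161), none, some (-70, 86), none, none, none],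
  ![none, none, none, none, none, some (-70, 86), none, some (-130, 66), none, none],
  ![none, some (-93/1, 375/4), none, none, none, none, some (-130, 66), none, some (-78, 105), none],
  ![none, some (-108/1, 195/2), some (-111/1, 387/4), none, some (-1286/11, 1048/11), none, none, some (-78, 105), none, some (-166, 83)],
  ![some (0, 0), none, none, none, none, none, none, none, some (-166, 83), none]]

lemma hnx (i : Fin 10) : x (finRotate 10 i) = nx i := by fin_cases i <;> rfl
lemma hpv (i : Fin 10) : x ((finRotate 10).symm i) = pv i := by fin_cases i <;> rfl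
lemma hW (i : Fin 10) : (2 : ℝ) • x i - x ((finRotate 10).symm i) - x (finRotate 10 i) = W i := by
  rw [hnx, hpv]
  fin_cases i <;> simp [x, nx, pv, W] <;> norm_num
lemma hD (i : Fin 10) : cr (W i) (V i) ≠ 0 := by
  fin_cases i <;> simp [W, V, cr] <;> norm_num

lemma hA0 (i j : Fin 10) (s u r : ℝ) (h1 : -s < u) (h2 : u < s) (h3 : s < 1 / 1000) (h4 : 0 ≤ r)
    (h5 : r ≤ 1) : x i + s • W i + u • V i ≠ x j + r • (nx j - x j) := by
  fin_cases i <;> fin_cases j <;> simp [x, nx, W, V, Prod.ext_iff] <;> intros <;>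
    (try intro h) <;> linarith

lemma hP0 (i j : Fin 10) (hij : i ≠ j) (s u r : ℝ) (h1 : -s < u) (h2 : u < s) (h3 : s < 1 / 1000)
    (h4 : 0 ≤ r) (h5 : r < 1 / 1000) : x i + s • W i + u • V i ≠ x j + r • W j := by
  fin_cases i <;> fin_cases j <;> first
    | exact absurd rfl hij
    | (simp [x, W, V, Prod.ext_iff] <;> intros <;> (try intro h) <;> linarith)

lemma pair (i j : Fin 10) (hij : i ≠ j) (s r : ℝ) (h1 : 0 ≤ s) (h2 : s ≤ 1) (h4 : 0 ≤ r)
    (h5 : r ≤ 1) (h : x i + s • (nx i - x i) = x j + r • (nx j - x j)) :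
    ∃ q, Q i j = some q ∧ x i + s • (nx i - x i) = ((q.1 : ℝ), (q.2 : ℝ)) := by
  fin_cases i <;> fin_cases j <;> first
    | exact absurd rfl hij
    | (refine ⟨_, rfl, ?_⟩; simp [x, nx, Prod.ext_iff] at h; obtain ⟨ha, hb⟩ := h
       refine Prod.ext ?_ ?_ <;> simp [x, nx] <;> first | linarith | (left; linarith))
    | (exfalso; simp [x, nx, Prod.ext_iff] at h; obtain ⟨ha, hb⟩ := h; linarith)

lemma triple : ∀ i j k : Fin 10, i ≠ j → j ≠ k → i ≠ k → Q i j = Q i k → Q i j = none := by
  decide +kernel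

end Pool.Agent.H.MP_ab53bf_co
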