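import Pool.Agent.H.MP_ab53bf_co.B

set_option autoImplicit false

namespace Pool.Agent.H.MP_ab53bf_co
open Set Filter Topology

def Ed (z : Fin 10 → ℝ × ℝ) (i : Fin 10) : Set (ℝ × ℝ) := segment ℝ (z i) (z (finRotate 10 i))
def Od (z : Fin 10 → ℝ × ℝ) : Prop :=
  ∀ (p : ℝ × ℝ) (i j k : Fin 10), p ∈ Ed z i → p ∈ Ed z j → p ∈ Ed z k → i = j ∨ j = k ∨ i = k
def Pa (a z : Fin 10 → ℝ × ℝ) : Prop :=
  ∀ i, ∃ c : ℝ, 0 < c ∧ z (finRotate 10 i) - z i = c • (a (finRotate 10 i) - a i)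
def Ml : (ℝ × ℝ) →ₗ[ℝ] (ℝ × ℝ) := LinearMap.prodMap (-LinearMap.id) LinearMap.id
def M : (ℝ × ℝ) ≃ₜ (ℝ × ℝ) := (Homeomorph.neg ℝ).prodCongr (Homeomorph.refl ℝ)
def y : Fin 10 → ℝ × ℝ := fun i => Ml (x i)

lemma M_eq (p : ℝ × ℝ) : M p = Ml p := rfl
lemma Ml_apply (p : ℝ × ℝ) : Ml p = (-p.1, p.2) := rfl
lemma M_seg (a b : ℝ × ℝ) : M '' segment ℝ a b = segment ℝ (Ml a) (Ml b) :=
  image_segment ℝ Ml.toAffineMap a b
lemma Ed_y (i : Fin 10) : Ed y i = M '' Ed x i := (M_seg _ _).symm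

lemma mem_Ed (p : ℝ × ℝ) (i : Fin 10) :
    p ∈ Ed x i ↔ ∃ s : ℝ, 0 ≤ s ∧ s ≤ 1 ∧ p = x i + s • (nx i - x i) := by
  rw [Ed, hnx, segment_eq_image']
  constructor
  · rintro ⟨t, ⟨h0, h1⟩, rfl⟩; exact ⟨t, h0, h1, rfl⟩
  · rintro ⟨t, h0, h1, rfl⟩; exact ⟨t, ⟨h0, h1⟩, rfl⟩

lemma od_x : Od x := by
  intro p i j k hi hj hk
  by_contra hne
  simp only [not_or] at hne
  obtain ⟨hij, hjk, hik⟩ := hne
  obtain ⟨s, s0, s1, rfl⟩ := (mem_Ed p i).1 hi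
  obtain ⟨r, r0, r1, hr⟩ := (mem_Ed _ j).1 hj
  obtain ⟨t, t0, t1, ht⟩ := (mem_Ed _ k).1 hk
  obtain ⟨q, hq, e⟩ := pair i j hij s r s0 s1 r0 r1 hr
  obtain ⟨q', hq', e'⟩ := pair i k hik s t s0 s1 t0 t1 ht
  have : q = q' := by
    rw [e] at e'
    simp only [Prod.mk.injEq, Rat.cast_inj] at e'
    exact Prod.ext e'.1 e'.2
  have h := triple i j k hij hjk hik (by rw [hq, hq', this])
  rw [hq] at h
  cases h

lemma od_y : Od y := by
  intro p i j k hi hj hk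
  rw [Ed_y] at hi hj hk
  obtain ⟨a, ha, rfl⟩ := hi
  exact od_x a i j k ha ((M.injective.mem_set_image).1 hj) ((M.injective.mem_set_image).1 hk)

lemma ncol (a b c : ℝ × ℝ) (h : cr (a - b) (c - b) ≠ 0) : ¬ Collinear ℝ ({a, b, c} : Set (ℝ × ℝ)) := by
  intro hc
  obtain ⟨v, hv⟩ := (collinear_iff_of_mem (p₀ := b) (by simp)).1 hc
  obtain ⟨r, hr⟩ := hv a (by simp)
  obtain ⟨s, hs⟩ := hv c (by simp)
  apply h
  rw [hr, hs]
  simp [cr]; ring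

lemma pr_x : (∀ i, x i ≠ x (finRotate 10 i)) ∧
    ∀ i, ¬ Collinear ℝ ({x ((finRotate 10).symm i), x i, x (finRotate 10 i)} : Set (ℝ × ℝ)) := by
  refine ⟨fun i => ?_, fun i => ncol _ _ _ ?_⟩
  · rw [hnx]; fin_cases i <;> simp [x, nx] <;> norm_num
  · rw [hnx, hpv]; fin_cases i <;> simp [x, nx, pv, cr] <;> norm_num

lemma pr_y : (∀ i, y i ≠ y (finRotate 10 i)) ∧
    ∀ i, ¬ Collinear ℝ ({y ((finRotate 10).symm i), y i, y (finRotate 10 i)} : Set (ℝ × ℝ)) := by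
  refine ⟨fun i h => pr_x.1 i (M.injective h), fun i => ncol _ _ _ ?_⟩
  simp only [y, hnx, hpv]
  fin_cases i <;> simp [x, nx, pv, cr, Ml_apply] <;> norm_num

def Pe (z : Fin 10 → ℝ × ℝ) (ε : ℝ) (i : Fin 10) : ℝ × ℝ :=
  z i + ε • ((2 : ℝ) • z i - z ((finRotate 10).symm i) - z (finRotate 10 i))
def MS (z : Fin 10 → ℝ × ℝ) (ε : ℝ) : Set (ℝ × ℝ) :=
  (⋃ i, Ed z i) ∪ ⋃ i, segment ℝ (z i) (Pe z ε i)
def ND (z : Fin 10 → ℝ × ℝ) (ε : ℝ) : Set (ℝ × ℝ) :=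
  range z ∪ {p : ℝ × ℝ | ∃ i j, i ≠ j ∧ p ∈ Ed z i ∧ p ∈ Ed z j} ∪ range (Pe z ε)

lemma Pe_x (ε : ℝ) : Pe x ε = fun i => x i + ε • W i := by
  funext i; rw [Pe, hW]
lemma Pe_y (ε : ℝ) (i : Fin 10) : Pe y ε i = Ml (Pe x ε i) := by
  simp [Pe, y]

lemma same : ∃ δ : ℝ, 0 < δ ∧ ∀ ε₁ ε₂ : ℝ, 0 < ε₁ → ε₁ < δ → 0 < ε₂ → ε₂ < δ →
    ∃ h : Homeomorph (ℝ × ℝ) (ℝ × ℝ), h '' MS x ε₁ = MS y ε₂ ∧ h '' ND x ε₁ = ND y ε₂ := by
  refine ⟨1 / 1000, by norm_num, fun e1 e2 a1 a2 b1 b2 => ?_⟩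
  obtain ⟨g, g1, g2⟩ := multi (⋃ i, Ed x i)
    (range x ∪ {p : ℝ × ℝ | ∃ i j, i ≠ j ∧ p ∈ Ed x i ∧ p ∈ Ed x j}) x W V (1 / 1000)
    (by
      rintro p (⟨i, rfl⟩ | ⟨i, j, -, h, -⟩)
      · exact mem_iUnion.2 ⟨i, left_mem_segment _ _ _⟩
      · exact mem_iUnion.2 ⟨i, h⟩)
    hD
    (by
      intro i s u h1 h2 h
      obtain ⟨j, hj⟩ := mem_iUnion.1 h
      obtain ⟨r, r0, r1, hr⟩ := (mem_Ed _ j).1 hj
      exact hA0 i j s u r (abs_lt.1 h1).1 (abs_lt.1 h1).2 h2 r0 r1 hr)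
    (fun i j hij s u r h1 h2 h3 h4 => hP0 i j hij s u r (abs_lt.1 h1).1 (abs_lt.1 h1).2 h2 h3 h4)
    (fun _ => e1) (fun _ => e2) (fun _ => ⟨a1, a2⟩) (fun _ => ⟨b1, b2⟩)
  have m1 : M '' MS x e2 = MS y e2 := by
    simp only [MS, image_union, image_iUnion, Ed_y, M_seg, Pe_y]
    rfl
  have m2 : M '' ND x e2 = ND y e2 := by
    simp only [ND, image_union, ← range_comp]
    congr 2
    · ext p
      simp only [mem_image, mem_ofPred_eq, Ed_y]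
      constructor
      · rintro ⟨q, ⟨i, j, hij, h1, h2⟩, rfl⟩
        exact ⟨i, j, hij, ⟨q, h1, rfl⟩, ⟨q, h2, rfl⟩⟩
      · rintro ⟨i, j, hij, ⟨q, h1, rfl⟩, ⟨q', h2, e⟩⟩
        obtain rfl := M.injective e
        exact ⟨q', ⟨i, j, hij, h1, h2⟩, rfl⟩
    · funext i; exact (Pe_y e2 i).symm
  refine ⟨g.trans M, ?_, ?_⟩
  · rw [← m1]
    simp only [MS, Pe_x]
    rw [← g1, image_image]; rfl
  · rw [← m2]
    simp only [ND, Pe_x]
    rw [← g2, image_image]; rfl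

lemma paD (z : Fin 10 → ℝ × ℝ) (h : Pa x z) (i : Fin 10) :
    ∃ c : ℝ, 0 < c ∧ z (finRotate 10 i) - z i = c • D i := by
  obtain ⟨c, hc, e⟩ := h i
  have : ∃ m : ℝ, 0 < m ∧ x (finRotate 10 i) - x i = m • D i := by
    rw [hnx]
    refine ⟨![47, 52, 3, 5, 22, 25, 20, 13, 22, 83] i, ?_, ?_⟩ <;>
      fin_cases i <;> simp [x, nx, D] <;> norm_num
  obtain ⟨m, hm, e'⟩ := this
  exact ⟨c * m, mul_pos hc hm, by rw [e, e', smul_smul]⟩

lemma nov (z : Fin 10 → ℝ × ℝ) (h : Od z) (a f : Fin 10) (h1 : a ≠ f) (h2 : (finRotate 10).symm a ≠ f) :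
    z a ∉ Ed z f := by
  intro hm
  have h3 : z a ∈ Ed z ((finRotate 10).symm a) := by
    rw [Ed, Equiv.apply_symm_apply]; exact right_mem_segment _ _ _
  rcases h (z a) a ((finRotate 10).symm a) f (left_mem_segment _ _ _) h3 hm with e | e | e
  · revert e; generalize a = b; revert b; decide
  · exact h2 e
  · exact h1 e

noncomputable def PH (z : Fin 10 → ℝ × ℝ) (e f : Fin 10) : ℝ :=
  ph (z e) (z (finRotate 10 e)) (z f) (z (finRotate 10 f)) (D e) (D f)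

def Far (e f : Fin 10) : Prop := e ≠ f ∧ finRotate 10 e ≠ f ∧ finRotate 10 f ≠ e

lemma PH_ne (z : Fin 10 → ℝ × ℝ) (h : Od z) (hp : Pa x z) (e f : Fin 10) (hf : Far e f)
    (hk : 0 < cr (D e) (D f)) : PH z e f ≠ 0 := by
  intro h0
  obtain ⟨b, hb, e1⟩ := paD z hp e
  obtain ⟨c, hc, e2⟩ := paD z hp f
  obtain ⟨f1, f2, f3⟩ := hf
  rcases hit _ _ _ _ _ _ b c hb hc e1 e2 hk h0 with m | m | m | m
  · exact nov z h e f f1 (fun q => f3 (by rw [← q]; simp)) m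
  · exact nov z h _ f f2 (by simpa using f1) m
  · exact nov z h f e f1.symm (fun q => f2 (by rw [← q]; simp)) m
  · exact nov z h _ e f3 (by simpa using f1.symm) m

lemma block (z : Fin 10 → ℝ × ℝ) (hp : Pa x z)
    (c0 : 0 < PH z 1 5)
    (c1 : 0 < PH z 7 1)
    (c2 : 0 < PH z 1 8)
    (c3 : 0 < PH z 8 2)
    (c4 : 0 < PH z 4 8)
    (n0 : 0 < -PH z 2 4)
    (n1 : 0 < -PH z 5 7)
    (n2 : 0 < -PH z 2 7)
    : (z 8).2 - (z 2).2 ≠ 0 := by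
  intro hg
  obtain ⟨m0, hm0, e0⟩ := paD z hp 0
  rw [show finRotate 10 0 = 1 from rfl] at e0
  simp [D, Prod.ext_iff] at e0
  obtain ⟨a0, b0⟩ := e0
  obtain ⟨m1, hm1, e1⟩ := paD z hp 1
  rw [show finRotate 10 1 = 2 from rfl] at e1
  simp [D, Prod.ext_iff] at e1
  obtain ⟨a1, b1⟩ := e1
  obtain ⟨m2, hm2, e2⟩ := paD z hp 2
  rw [show finRotate 10 2 = 3 from rfl] at e2
  simp [D, Prod.ext_iff] at e2
  obtain ⟨a2, b2⟩ := e2
  obtain ⟨m3, hm3, e3⟩ := paD z hp 3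
  rw [show finRotate 10 3 = 4 from rfl] at e3
  simp [D, Prod.ext_iff] at e3
  obtain ⟨a3, b3⟩ := e3
  obtain ⟨m4, hm4, e4⟩ := paD z hp 4
  rw [show finRotate 10 4 = 5 from rfl] at e4
  simp [D, Prod.ext_iff] at e4
  obtain ⟨a4, b4⟩ := e4
  obtain ⟨m5, hm5, e5⟩ := paD z hp 5
  rw [show finRotate 10 5 = 6 from rfl] at e5
  simp [D, Prod.ext_iff] at e5
  obtain ⟨a5, b5⟩ := e5
  obtain ⟨m6, hm6, e6⟩ := paD z hp 6
  rw [show finRotate 10 6 = 7 from rfl] at e6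
  simp [D, Prod.ext_iff] at e6
  obtain ⟨a6, b6⟩ := e6
  obtain ⟨m7, hm7, e7⟩ := paD z hp 7
  rw [show finRotate 10 7 = 8 from rfl] at e7
  simp [D, Prod.ext_iff] at e7
  obtain ⟨a7, b7⟩ := e7
  obtain ⟨m8, hm8, e8⟩ := paD z hp 8
  rw [show finRotate 10 8 = 9 from rfl] at e8
  simp [D, Prod.ext_iff] at e8
  obtain ⟨a8, b8⟩ := e8
  obtain ⟨m9, hm9, e9⟩ := paD z hp 9
  rw [show finRotate 10 9 = 0 from rfl] at e9
  simp [D, Prod.ext_iff] at e9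
  obtain ⟨a9, b9⟩ := e9
  rw [neg_pos] at n0 n1 n2
  simp only [PH, ph, lt_min_iff, min_lt_iff, show finRotate 10 1 = 2 from rfl, show finRotate 10 2 = 3 from rfl, show finRotate 10 4 = 5 from rfl, show finRotate 10 5 = 6 from rfl, show finRotate 10 7 = 8 from rfl, show finRotate 10 8 = 9 from rfl] at c0 c1 c2 c3 c4 n0 n1 n2
  simp only [cr, D, Prod.fst_sub, Prod.snd_sub, Matrix.cons_val] at c0 c1 c2 c3 c4 n0 n1 n2
  obtain ⟨⟨p0, q0⟩, r0, s0⟩ := c0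
  obtain ⟨⟨p1, q1⟩, r1, s1⟩ := c1
  obtain ⟨⟨p2, q2⟩, r2, s2⟩ := c2
  obtain ⟨⟨p3, q3⟩, r3, s3⟩ := c3
  obtain ⟨⟨p4, q4⟩, r4, s4⟩ := c4
  rcases n0 with (n0 | n0) | n0 | n0 <;> first
    | linarith
    | (rcases n1 with (n1 | n1) | n1 | n1 <;> first
        | linarith
        | (rcases n2 with (n2 | n2) | n2 | n2 <;> linarith))

lemma nodef (X : ℝ → Fin 10 → ℝ × ℝ) (hc : ∀ j, ContinuousOn (fun t => X t j) (Icc (0 : ℝ) 1))
    (h0 : X 0 = x) (h : ∀ t ∈ Icc (0 : ℝ) 1, Od (X t) ∧ Pa x (X t)) :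
    0 < (X 1 8).2 - (X 1 2).2 := by
  have cP : ∀ e f, ContinuousOn (fun t => PH (X t) e f) (Icc (0 : ℝ) 1) := by
    intro e f
    have h1 := hc e
    have h2 := hc f
    have h3 := hc (finRotate 10 e)
    have h4 := hc (finRotate 10 f)
    unfold PH ph cr
    fun_prop
  have pos : ∀ e f, Far e f → 0 < cr (D e) (D f) → 0 < PH x e f →
      ∀ t ∈ Icc (0 : ℝ) 1, 0 < PH (X t) e f := fun e f a b c =>
    sgn _ (cP e f) (fun t ht => PH_ne _ (h t ht).1 (h t ht).2 e f a b) (by rwa [h0])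
  have neg : ∀ e f, Far e f → 0 < cr (D e) (D f) → 0 < -PH x e f →
      ∀ t ∈ Icc (0 : ℝ) 1, 0 < -PH (X t) e f := fun e f a b c =>
    sgn _ (cP e f).neg (fun t ht => neg_ne_zero.2 (PH_ne _ (h t ht).1 (h t ht).2 e f a b))
      (by rwa [h0])
  refine sgn (fun t => (X t 8).2 - (X t 2).2) ?_ (fun t ht => block _ (h t ht).2
    (pos 1 5 (by unfold Far; decide) (by simp [cr, D]; try norm_num) (by simp [PH, ph, cr, D, x]; try norm_num) t ht)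
    (pos 7 1 (by unfold Far; decide) (by simp [cr, D]; try norm_num) (by simp [PH, ph, cr, D, x]; try norm_num) t ht)
    (pos 1 8 (by unfold Far; decide) (by simp [cr, D]; try norm_num) (by simp [PH, ph, cr, D, x]; try norm_num) t ht)
    (pos 8 2 (by unfold Far; decide) (by simp [cr, D]; try norm_num) (by simp [PH, ph, cr, D, x]; try norm_num) t ht)
    (pos 4 8 (by unfold Far; decide) (by simp [cr, D]; try norm_num) (by simp [PH, ph, cr, D, x]; try norm_num) t ht)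
    (neg 2 4 (by unfold Far; decide) (by simp [cr, D]; try norm_num) (by simp [PH, ph, cr, D, x]; try norm_num) t ht)
    (neg 5 7 (by unfold Far; decide) (by simp [cr, D]; try norm_num) (by simp [PH, ph, cr, D, x]; try norm_num) t ht)
    (neg 2 7 (by unfold Far; decide) (by simp [cr, D]; try norm_num) (by simp [PH, ph, cr, D, x]; try norm_num) t ht)
    ) ?_ 1 (by simp)
  · have h1 := hc 8
    have h2 := hc 2
    fun_prop
  · simp [h0, x]; norm_num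

lemma sig (σ : Equiv.Perm (Fin 10))
    (hd : (∀ i, σ (finRotate 10 i) = finRotate 10 (σ i)) ∨
      (∀ i, σ (finRotate 10 i) = (finRotate 10).symm (σ i)))
    (hp : Pa x (fun i => y (σ i))) : σ 8 = 2 ∧ σ 2 = 8 := by
  obtain ⟨c, hc, e⟩ := paD _ hp 0
  rcases hd with hd | hd
  · exfalso
    simp only [hd, y, hnx] at e
    generalize σ 0 = a at e
    fin_cases a <;> simp [x, nx, D, Ml_apply, Prod.ext_iff] at e <;> linarith [e.1, e.2]
  · have s0 : σ 0 = 0 := by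
      simp only [hd, y, hpv] at e
      generalize σ 0 = a at e
      fin_cases a <;> first
        | rfl
        | (exfalso; simp [x, pv, D, Ml_apply, Prod.ext_iff] at e; linarith [e.1, e.2])
    have s1 : σ 1 = 9 := by have := hd 0; rw [s0] at this; exact this
    have s2 : σ 2 = 8 := by have := hd 1; rw [s1] at this; exact this
    have s3 : σ 3 = 7 := by have := hd 2; rw [s2] at this; exact this
    have s4 : σ 4 = 6 := by have := hd 3; rw [s3] at this; exact this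
    have s5 : σ 5 = 5 := by have := hd 4; rw [s4] at this; exact this
    have s6 : σ 6 = 4 := by have := hd 5; rw [s5] at this; exact this
    have s7 : σ 7 = 3 := by have := hd 6; rw [s6] at this; exact this
    have s8 : σ 8 = 2 := by have := hd 7; rw [s7] at this; exact this
    exact ⟨s8, s2⟩

def sg : Fin 10 → Fin 10 := ![0, 9, 8, 7, 6, 5, 4, 3, 2, 1]
lemma sg_inv : Function.Involutive sg := by unfold Function.Involutive; decide
lemma sg_rot : ∀ i, sg (finRotate 10 i) = (finRotate 10).symm (sg i) := by decide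

lemma par : ∃ σ : Equiv.Perm (Fin 10), (∀ i, σ (finRotate 10 i) = (finRotate 10).symm (σ i)) ∧
    Pa x (fun i => y (σ i)) := by
  refine ⟨sg_inv.toPerm, sg_rot, fun i => ?_⟩
  simp only [y, Function.Involutive.coe_toPerm, sg_rot, hnx, hpv]
  refine ⟨![83 / 47, 22 / 52, 13 / 3, 20 / 5, 25 / 22, 22 / 25, 5 / 20, 3 / 13, 52 / 22, 47 / 83] i,
    ?_, ?_⟩ <;> fin_cases i <;> simp [x, nx, pv, sg, Ml_apply] <;> norm_num

end Pool.Agent.H.MP_ab53bf_co
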